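import Pool.Agent.N84.MD.BC
import Pool.Agent.N84.MD.GB
import Pool.Agent.N625.PT.H

/-!
# The Goldbach graphs: ALL the vertices near the first digits of almost every real number are in the bounded part

Definitions used, from the starting file `Pool.Agent.Results.MP_443e5f_co.AlmostAllVertices`: the finite Goldbach graph
`goldbach n` on `{0, 2, 4, …, 2 n}` and the finite near Goldbach graph `nearGoldbach n` on `{2, 4, …, 2 n}`.

The starting file shows that after the removal of at most `n / log ^ U n` vertices (about which nothing is known) there are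
at most `C` components, all of diameter at most `C`. As in helper469's file `SmoothVertices` all the vertices of large degree are
added to this bounded part. Here `x_k < b ^ k` is the integer formed by the first `k` digits of a random real number, or
any sequence of random integers on one probability space whose laws have exchangeable blocks of digits. Almost surely, for
all large `k`, ALL the vertices near `c_k + κ x_k` belong to the bounded part of the graphs with the number `n`, for ALL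
the `n` between `b ^ k / C` and `k ^ K b ^ k`, and for all the parameters at once. This applies

* to almost every real number `ξ` in `[0, 1)`, with `x_k = [b ^ k ξ]`;
* to almost every point `ξ` with respect to any measure for which the first `k` digits have exchangeable blocks:
  Bernoulli and Markov measures, for example almost every point of the Cantor set with respect to the Cantor measure.

The degree of a vertex is the number of its representations as a sum or a difference of two primes. The proof combines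
helper625's theorem for random integers with exchangeable blocks of digits (`Pool.Agent.N625.PT.flex_tcls`), the second
moment methods of the starting files (`Pool.Agent.Y885.tl_windows`, `Pool.Agent.Y885.tl_tuples`), the latter at all the
scales `2 ^ j`, and the lemma of Borel and Cantelli.
-/

set_option autoImplicit false

open Filter MeasureTheory Finset
open scoped ENNReal

namespace Pool.Agent.Results.MP_443e5f_co.AlmostEveryRealNumber

open Pool.Agent.Results.MP_443e5f_co.AlmostAllVertices (goldbach nearGoldbach)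

/-- All the vertices of `G` with at most `n / (log n) ^ U` exceptions belong to `X`, the subgraph of `G` induced on `X` has at
most `C` connected components, any two vertices of the same component of this subgraph are at a distance of at most `C` in it,
and every vertex of `X` has at least `c n / (log n) ^ 2` neighbours in `X`. -/
def Bounded {V : Type} (G : SimpleGraph V) (X : Set V) (C : ℕ) (c : ℝ) (U n : ℕ) : Prop :=
  (Xᶜ.ncard : ℝ) ≤ n / Real.log n ^ U ∧
    Nat.card (G.induce X).ConnectedComponent ≤ C ∧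
    (∀ u v : X, (G.induce X).Reachable u v → (G.induce X).dist u v ≤ C) ∧
    ∀ u : X, c * (n / Real.log n ^ 2) ≤ (((G.induce X).neighborSet u).ncard : ℝ)

/-- `a` is a vertex of the Goldbach graph outside `X` or a vertex of the near Goldbach graph outside `Y`. -/
def Outside (n : ℕ) (X : Set {a : ℕ // Even a ∧ a ≤ 2 * n}) (Y : Set {a : ℕ // Even a ∧ 2 ≤ a ∧ a ≤ 2 * n}) (a : ℕ) : Prop :=
  (∃ h : Even a ∧ a ≤ 2 * n, (⟨a, h⟩ : {a : ℕ // Even a ∧ a ≤ 2 * n}) ∉ X) ∨
    ∃ h : Even a ∧ 2 ≤ a ∧ a ≤ 2 * n, (⟨a, h⟩ : {a : ℕ // Even a ∧ 2 ≤ a ∧ a ≤ 2 * n}) ∉ Y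

/-- The probability, for the distribution `μ` on the words of `k` digits (the integers `v < b ^ k`), that the word begins with
the `i` digits of `u < b ^ i`. -/
noncomputable def begins (b k : ℕ) (μ : ℕ → ℝ) (i u : ℕ) : ℝ := ∑ w ∈ range (b ^ (k - i)), μ (u * b ^ (k - i) + w)

/-- `p` is a probability on the words of `k` digits in base `b`, read as integers `v < b ^ k`. There is another probability
`μ` with `p ≤ k ^ T μ` such that after every beginning `u` two different blocks `a`, `a'` of `L` digits can be exchanged: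
`p (u a w) = r p (u a' w)` for all endings `w`, with a factor `r` between `η` and `1 / η` which does not depend on `w`; and
given the beginning `u`, each of the two blocks comes next with a probability of at least `η` in the distribution `μ`.
(For `T = 0` one has `μ = p`. For the uniform distribution on a set of words `r` is `1`.) -/
structure Exchangeable (b L : ℕ) (η : ℝ) (T k : ℕ) (p : ℕ → ℝ) : Prop where
  nonneg : ∀ v, 0 ≤ p v
  sum : ∑ v ∈ range (b ^ k), p v = 1
  dominated : ∃ μ : ℕ → ℝ, (∀ v, 0 ≤ μ v) ∧ ∑ v ∈ range (b ^ k), μ v = 1 ∧ (∀ v < b ^ k, p v ≤ (k : ℝ) ^ T * μ v) ∧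
    ∀ i u : ℕ, i + L ≤ k → u < b ^ i → ∃ (a a' : ℕ) (r : ℝ), a < a' ∧ a' < b ^ L ∧ η ≤ r ∧ η * r ≤ 1 ∧
      (∀ w < b ^ (k - (i + L)), p ((b ^ L * u + a) * b ^ (k - (i + L)) + w) = r * p ((b ^ L * u + a') * b ^ (k - (i + L)) + w)) ∧
      η * begins b k μ i u ≤ begins b k μ (i + L) (b ^ L * u + a) ∧
      η * begins b k μ i u ≤ begins b k μ (i + L) (b ^ L * u + a')

lemma begins_sum (b k : ℕ) (μ : ℕ → ℝ) (i u : ℕ) (hi : i < k) :
    ∑ a ∈ range b, begins b k μ (i + 1) (b * u + a) = begins b k μ i u := by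
  unfold begins
  obtain ⟨n, hn⟩ : ∃ n, k - i = n + 1 := ⟨k - i - 1, by omega⟩
  have h1 : k - (i + 1) = n := by omega
  rw [h1, hn, pow_succ, mul_comm (b ^ n) b, Pool.Agent.N625.PT.sum_blocks b (b ^ n)]
  apply sum_congr rfl
  intro a _
  apply sum_congr rfl
  intro w _
  congr 1
  ring

lemma flex_of {b L T k : ℕ} {η : ℝ} {p : ℕ → ℝ} (hp : Exchangeable b L η T k p) : Pool.Agent.N625.PT.Flex b L η T k p := by
  obtain ⟨h0, h1, μ, m0, m1, m2, m3⟩ := hp
  have hT : (0 : ℝ) ≤ (k : ℝ) ^ T := by positivity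
  have hb0 : ∀ i u, 0 ≤ begins b k μ i u := fun i u => sum_nonneg fun w _ => m0 _
  refine ⟨h0, h1, fun i u => (k : ℝ) ^ T * begins b k μ i u, fun i u => mul_nonneg hT (hb0 i u), ?_, ?_, ?_, ?_⟩
  · intro v hv
    refine (m2 v hv).trans (le_of_eq ?_)
    unfold begins
    simp
  · intro i hi u _
    simp only
    rw [← mul_sum, begins_sum b k μ i u hi]
  · simp only
    have : begins b k μ 0 0 = 1 := by
      unfold begins
      simpa using m1
    rw [this, mul_one]
  · intro i u hi hu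
    obtain ⟨a, a', r, q1, q2, q3, q4, q5, q6, q7⟩ := m3 i u hi hu
    refine ⟨a, a', r, q1, q2, q3, q4, q5, ?_, ?_⟩
    · simp only
      calc η * ((k : ℝ) ^ T * begins b k μ i u) = (k : ℝ) ^ T * (η * begins b k μ i u) := by ring
        _ ≤ _ := mul_le_mul_of_nonneg_left q6 hT
    · simp only
      calc η * ((k : ℝ) ^ T * begins b k μ i u) = (k : ℝ) ^ T * (η * begins b k μ i u) := by ring
        _ ≤ _ := mul_le_mul_of_nonneg_left q7 hT

/-- For all integers `κ ≠ 0`, `C`, `K` and `W` and for all large `k`: for all `n` with `b ^ k ≤ C n` and `n ≤ k ^ K b ^ k` all the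
vertices `a` of the Goldbach graph with `|a - (c_k + κ x_k)| ≤ k ^ W` belong to `X n`, and all the vertices of the near
Goldbach graph with this property belong to `Y n`. -/
def Always (X : ∀ n : ℕ, Set {a : ℕ // Even a ∧ a ≤ 2 * n}) (Y : ∀ n : ℕ, Set {a : ℕ // Even a ∧ 2 ≤ a ∧ a ≤ 2 * n})
    (b : ℕ) (c : ℕ → ℤ) (x : ℕ → ℕ) : Prop :=
  ∀ (κ : ℤ) (C K W : ℕ), κ ≠ 0 → ∀ᶠ k : ℕ in atTop, ∀ n : ℕ, b ^ k ≤ C * n → n ≤ k ^ K * b ^ k → ∀ a : ℕ,
    |(a : ℤ) - (c k + κ * x k)| ≤ (k : ℤ) ^ W → ¬ Outside n (X n) (Y n) a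

/-- the uniform distribution has exchangeable digits -/
theorem exch_unif (b : ℕ) (hb : 2 ≤ b) (k : ℕ) (p : ℕ → ℝ) (hp : ∀ v < b ^ k, p v = 1 / (b : ℝ) ^ k)
    (hp0 : ∀ v, 0 ≤ p v) : Exchangeable b 1 (1 / b) 0 k p := by
  have hb0 : (0 : ℝ) < b := by exact_mod_cast (by omega : 0 < b)
  have hbk : (0 : ℝ) < (b : ℝ) ^ k := by positivity
  have hsum : ∀ f : ℕ → ℝ, (∀ v < b ^ k, f v = 1 / (b : ℝ) ^ k) → ∑ v ∈ range (b ^ k), f v = 1 := by
    intro f hf
    rw [sum_congr rfl fun v hv => hf v (mem_range.1 hv), sum_const, card_range, nsmul_eq_mul]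
    push_cast
    field_simp
  refine ⟨hp0, hsum p hp, fun _ => 1 / (b : ℝ) ^ k, fun _ => by positivity, hsum _ fun _ _ => rfl, ?_, ?_⟩
  · intro v hv
    rw [hp v hv, pow_zero, one_mul]
  · intro i u hi hu
    obtain ⟨n, hn⟩ : ∃ n, k = i + 1 + n := ⟨k - (i + 1), by omega⟩
    have e1 : k - (i + 1) = n := by omega
    have e2 : k - i = n + 1 := by omega
    have hlt : ∀ a, a < b → ∀ w, w < b ^ n → (b ^ 1 * u + a) * b ^ n + w < b ^ k := by
      intro a ha w hw
      have h1 : b ^ 1 * u + a + 1 ≤ b ^ (i + 1) := by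
        rw [pow_one, pow_succ]
        nlinarith
      calc (b ^ 1 * u + a) * b ^ n + w < (b ^ 1 * u + a) * b ^ n + b ^ n := by omega
        _ = (b ^ 1 * u + a + 1) * b ^ n := by ring
        _ ≤ b ^ (i + 1) * b ^ n := Nat.mul_le_mul_right _ h1
        _ = b ^ k := by rw [hn, pow_add b (i + 1) n]
    have hbeg : ∀ j u', begins b k (fun _ => 1 / (b : ℝ) ^ k) j u' = (b : ℝ) ^ (k - j) * (1 / (b : ℝ) ^ k) := by
      intro j u'
      unfold begins
      rw [sum_const, card_range, nsmul_eq_mul]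
      push_cast
      rfl
    refine ⟨0, 1, 1, one_pos, by rw [pow_one]; omega, ?_, ?_, ?_, ?_, ?_⟩
    · rw [div_le_one hb0]
      exact_mod_cast (by omega : 1 ≤ b)
    · rw [mul_one, div_le_one hb0]
      exact_mod_cast (by omega : 1 ≤ b)
    · intro w hw
      rw [e1] at hw ⊢
      rw [hp _ (hlt 0 (by omega) w hw), hp _ (hlt 1 (by omega) w hw), one_mul]
    · rw [hbeg, hbeg, e1, e2, pow_succ]
      apply le_of_eq
      field_simp
    · rw [hbeg, hbeg, e1, e2, pow_succ]
      apply le_of_eq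
      field_simp

/-- There are absolute constants `C` and `c > 0` such that for every `U` there are sets `X n` of vertices of the finite Goldbach
graph `G_n` and `Y n` of vertices of the finite near Goldbach graph `G(n)` with the following properties.

**(0)** For all large `n`, all but at most `n / log ^ U n` vertices belong to `X n`, the subgraph induced on `X n` has at most `C`
components, all of diameter at most `C`, and all its degrees are at least `c n / log ^ 2 n`; and the same for `Y n`.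

**(1)** Let `x_k = x_k(ω) < b ^ k` be random integers on a probability space whose laws have exchangeable blocks of digits for all
large `k`, and `c_k` integers with `|c_k| ≤ B b ^ k`. Then almost surely `Always X Y b c x`.

**(2)** For all `b ≥ 2` and integers `c_k` with `|c_k| ≤ B b ^ k`, almost every real number `ξ` in `[0, 1)` has the property
`Always X Y b c x` with `x_k = [b ^ k ξ]`. -/
theorem result : ∃ (C : ℕ) (c : ℝ), 0 < c ∧ ∀ U : ℕ, ∃ (X : ∀ n : ℕ, Set {a : ℕ // Even a ∧ a ≤ 2 * n})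
    (Y : ∀ n : ℕ, Set {a : ℕ // Even a ∧ 2 ≤ a ∧ a ≤ 2 * n}),
    (∃ n₀ : ℕ, ∀ n : ℕ, n₀ ≤ n → Bounded (goldbach n) (X n) C c U n ∧ Bounded (nearGoldbach n) (Y n) C c U n) ∧
    (∀ (b L : ℕ), 2 ≤ b → 1 ≤ L → ∀ η : ℝ, 0 < η → η ≤ 1 → ∀ (T₀ B : ℕ) (c : ℕ → ℤ), (∀ k, |c k| ≤ B * (b : ℤ) ^ k) →
      ∀ (Ω : Type) [MeasurableSpace Ω] (ν : Measure Ω) [IsProbabilityMeasure ν] (x : ℕ → Ω → ℕ), (∀ k ω, x k ω < b ^ k) →
      (∀ᶠ k : ℕ in atTop, Exchangeable b L η T₀ k fun v => (ν {ω | x k ω = v}).toReal) →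
        ∀ᵐ ω ∂ν, Always X Y b c fun k => x k ω) ∧
    (∀ b : ℕ, 2 ≤ b → ∀ (B : ℕ) (c : ℕ → ℤ), (∀ k, |c k| ≤ B * (b : ℤ) ^ k) →
      ∀ᵐ ξ : ℝ, 0 ≤ ξ → ξ < 1 → Always X Y b c fun k => ⌊(b : ℝ) ^ k * ξ⌋₊) := by
  classical
  obtain ⟨C, c, hc, hall⟩ := Pool.Agent.Results.MP_443e5f_co.AlmostAllVertices.result
  obtain ⟨c₁, hc₁, n₁, hdeg⟩ := Pool.Agent.N84.MD.GB.deg2
  refine ⟨C * (C + 3) + C, min c (c₁ / 2), lt_min hc (by positivity), fun U => ?_⟩
  obtain ⟨n₂, h2⟩ := hall (U + 3)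
  obtain ⟨n₃, h3⟩ := Pool.Agent.H373R2.T7.ev_L' (2 / c₁ + 1)
  have hex : ∀ n : ℕ, ∃ (X : Set {a : ℕ // Even a ∧ a ≤ 2 * n}) (Y : Set {a : ℕ // Even a ∧ 2 ≤ a ∧ a ≤ 2 * n}),
      n₁ + n₂ + n₃ + 2 ≤ n → (Bounded (goldbach n) X (C * (C + 3) + C) (min c (c₁ / 2)) U n ∧
        Bounded (nearGoldbach n) Y (C * (C + 3) + C) (min c (c₁ / 2)) U n) ∧
        (∀ a, c₁ * (n / Real.log n ^ 2) ≤ (((goldbach n).neighborSet a).ncard : ℝ) → a ∈ X) ∧
        (∀ a, c₁ * (n / Real.log n ^ 2) ≤ (((nearGoldbach n).neighborSet a).ncard : ℝ) → a ∈ Y) := by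
    intro n
    by_cases hn : n₁ + n₂ + n₃ + 2 ≤ n
    · obtain ⟨q1, q2⟩ := h2 n (by omega)
      have a3 := h3 n (by omega)
      have hn0 : (0 : ℝ) < n := by exact_mod_cast (by omega : 0 < n)
      have hL1 : 1 ≤ Real.log (n : ℝ) := by
        have : 0 < 2 / c₁ := by positivity
        linarith
      have hL0 : 0 < Real.log (n : ℝ) := by linarith
      have hpos : 0 < (n : ℝ) / Real.log n ^ 2 := by positivity
      have hlarge : (n : ℝ) / Real.log n ^ (U + 3) ≤ c₁ / 2 * (n / Real.log n ^ 2) := by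
        have e1 : (n : ℝ) / Real.log n ^ (U + 3) = (1 / Real.log n ^ (U + 1)) * (n / Real.log n ^ 2) := by
          rw [show U + 3 = (U + 1) + 2 by ring, pow_add _ (U + 1) 2]
          field_simp
        rw [e1]
        apply mul_le_mul_of_nonneg_right _ hpos.le
        rw [div_le_iff₀ (by positivity)]
        have e2 : Real.log (n : ℝ) ≤ Real.log n ^ (U + 1) := le_self_pow₀ hL1 (by omega)
        have e3 : 2 / c₁ ≤ Real.log (n : ℝ) := by linarith
        rw [div_le_iff₀ hc₁] at e3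
        nlinarith
      obtain ⟨X, ⟨x1, x2, x3, x4⟩, x5⟩ := Pool.Agent.N469.GG.absorb (goldbach n) C c c₁ (U + 3) n q1 hc₁ hpos hlarge
      obtain ⟨Y, ⟨y1, y2, y3, y4⟩, y5⟩ := Pool.Agent.N469.GG.absorb (nearGoldbach n) C c c₁ (U + 3) n q2 hc₁ hpos hlarge
      have hU : (n : ℝ) / Real.log n ^ (U + 3) ≤ n / Real.log n ^ U :=
        div_le_div_of_nonneg_left hn0.le (by positivity) (pow_le_pow_right₀ hL1 (by omega))
      exact ⟨X, Y, fun _ => ⟨⟨⟨x1.trans hU, x2, x3, x4⟩, ⟨y1.trans hU, y2, y3, y4⟩⟩, x5, y5⟩⟩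
    · exact ⟨Set.univ, Set.univ, fun h => absurd h hn⟩
  choose X Y hXY using hex
  have main : ∀ (b L : ℕ), 2 ≤ b → 1 ≤ L → ∀ η : ℝ, 0 < η → η ≤ 1 → ∀ (T₀ B : ℕ) (c : ℕ → ℤ),
      (∀ k, |c k| ≤ B * (b : ℤ) ^ k) →
      ∀ (Ω : Type) [MeasurableSpace Ω] (ν : Measure Ω) [IsProbabilityMeasure ν] (x : ℕ → Ω → ℕ), (∀ k ω, x k ω < b ^ k) →
      (∀ᶠ k : ℕ in atTop, Exchangeable b L η T₀ k fun v => (ν {ω | x k ω = v}).toReal) →
        ∀ᵐ ω ∂ν, Always X Y b c fun k => x k ω := by
    intro b L hb hL η hη0 hη1 T₀ B c hc Ω _ ν _ x hx hlaw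
    have key : ∀ (κ : ℤ) (C K W : ℕ), κ ≠ 0 → ∀ᵐ ω ∂ν, ∀ᶠ k : ℕ in atTop, ∀ n : ℕ, b ^ k ≤ C * n → n ≤ k ^ K * b ^ k →
        ∀ a : ℕ, |(a : ℤ) - (c k + κ * x k ω)| ≤ (k : ℤ) ^ W → Even a → a ≤ 2 * n →
          c₁ * (n / Real.log n ^ 2) ≤ ((Pool.Agent.N469.GG.Nb n a).card : ℝ) := by
      intro κ C K W hκ
      obtain ⟨k₀, h0⟩ := Pool.Agent.N84.MD.GB.core (Pool.Agent.N625.PT.flex_tcls b L hb hL η hη0 hη1 T₀ κ hκ) B C K W 2
        c₁ n₁ hdeg
      obtain ⟨k₁, h1⟩ := eventually_atTop.1 hlaw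
      exact Pool.Agent.N84.MD.bc_nat ν (fun k => b ^ k) x hx
        (fun k v => ∀ n : ℕ, b ^ k ≤ C * n → n ≤ k ^ K * b ^ k → ∀ a : ℕ,
          |(a : ℤ) - (c k + κ * v)| ≤ (k : ℤ) ^ W → Even a → a ≤ 2 * n →
            c₁ * (n / Real.log n ^ 2) ≤ ((Pool.Agent.N469.GG.Nb n a).card : ℝ))
        ⟨max k₀ k₁, fun k hk => by
          have h3 := h0 k ((le_max_left _ _).trans hk) _ (flex_of (h1 k ((le_max_right _ _).trans hk))) (c k) (hc k)
          refine le_trans (le_of_eq ?_) h3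
          refine sum_congr rfl fun v _ => ?_
          split_ifs <;> rfl⟩
    have hall' : ∀ᵐ ω ∂ν, ∀ (κ : ℤ) (C K W : ℕ), κ ≠ 0 → ∀ᶠ k : ℕ in atTop, ∀ n : ℕ, b ^ k ≤ C * n →
        n ≤ k ^ K * b ^ k → ∀ a : ℕ, |(a : ℤ) - (c k + κ * x k ω)| ≤ (k : ℤ) ^ W → Even a → a ≤ 2 * n →
          c₁ * (n / Real.log n ^ 2) ≤ ((Pool.Agent.N469.GG.Nb n a).card : ℝ) := by
      refine ae_all_iff.2 fun κ => ae_all_iff.2 fun C => ae_all_iff.2 fun K => ae_all_iff.2 fun W => ?_
      by_cases hκ : κ = 0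
      · exact Filter.Eventually.of_forall fun ω h => absurd hκ h
      · filter_upwards [key κ C K W hκ] with ω hω _
        exact hω
    filter_upwards [hall'] with ω hω κ C K W hκ
    filter_upwards [hω κ C K W hκ, eventually_ge_atTop (C * (n₁ + n₂ + n₃ + 2))] with k hk hk2 n hn1 hn2 a ha hout
    have hkb : k < b ^ k := Nat.lt_pow_self (by omega)
    have hn : n₁ + n₂ + n₃ + 2 ≤ n := by
      by_contra hcon
      push Not at hcon
      have : C * n ≤ C * (n₁ + n₂ + n₃ + 2) := Nat.mul_le_mul_left _ hcon.le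
      omega
    obtain ⟨-, hX, hY⟩ := hXY n hn
    rcases hout with ⟨h, ho⟩ | ⟨h, ho⟩
    · refine ho (hX _ ((hk n hn1 hn2 a ha h.1 h.2).trans ?_))
      exact_mod_cast Pool.Agent.N469.GG.nb_gold n a h
    · refine ho (hY _ ((hk n hn1 hn2 a ha h.1 h.2.2).trans ?_))
      exact_mod_cast Pool.Agent.N469.GG.nb_near n a h
  refine ⟨X, Y, ⟨n₁ + n₂ + n₃ + 2, fun n hn => (hXY n hn).1⟩, main, fun b hb B c hc => ?_⟩
  have hb0 : (0 : ℝ) < b := by exact_mod_cast (by omega : 0 < b)
  have : IsProbabilityMeasure (volume.restrict (Set.Ico (0 : ℝ) 1)) :=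
    ⟨by rw [Measure.restrict_apply_univ, Real.volume_Ico]; norm_num⟩
  have hpos : ∀ k : ℕ, 0 < b ^ k := fun k => Nat.pow_pos (by omega)
  have h1 := main b 1 hb le_rfl (1 / b) (by positivity) (by
    rw [div_le_one hb0]
    exact_mod_cast (by omega : 1 ≤ b)) 0 B c hc ℝ (volume.restrict (Set.Ico (0 : ℝ) 1))
    (fun k ξ => ⌊((b ^ k : ℕ) : ℝ) * ξ⌋₊ % b ^ k) (fun k ξ => Nat.mod_lt _ (hpos k))
    (Filter.Eventually.of_forall fun k => exch_unif b hb k _ (fun v hv => by
      show ((volume.restrict (Set.Ico (0 : ℝ) 1)) {ξ : ℝ | ⌊((b ^ k : ℕ) : ℝ) * ξ⌋₊ % b ^ k = v}).toReal = _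
      rw [Pool.Agent.N84.MD.unif (b ^ k) (hpos k) v hv, ENNReal.toReal_ofReal (by positivity)]
      push_cast
      rfl) (fun v => ENNReal.toReal_nonneg))
  rw [ae_restrict_iff' measurableSet_Ico] at h1
  filter_upwards [h1] with ξ hξ h2 h3
  have h4 := hξ ⟨h2, h3⟩
  have h5 : (fun k : ℕ => ⌊((b ^ k : ℕ) : ℝ) * ξ⌋₊ % b ^ k) = fun k : ℕ => ⌊(b : ℝ) ^ k * ξ⌋₊ := by
    funext k
    have hbk : (0 : ℝ) < (b : ℝ) ^ k := by positivity
    push_cast
    refine Nat.mod_eq_of_lt ?_
    rw [Nat.floor_lt (by positivity)]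
    push_cast
    nlinarith
  rw [h5] at h4
  exact h4

end Pool.Agent.Results.MP_443e5f_co.AlmostEveryRealNumber
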