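import Pool.Agent.N469.GG.Deg
import Pool.Agent.N193.PS.Pair
import Pool.Agent.N193.PS.Gold
import Pool.Agent.N193.PS.Gp
import Pool.Agent.Results.MP_443e5f_co.AlmostAllVertices

/-!
# The Goldbach graphs: all the vertices near almost all the values of functions of a non-integral order are in the bounded part

Definitions used, from the starting file `Pool.Agent.Results.MP_443e5f_co.AlmostAllVertices`: the finite Goldbach graph
`goldbach n` on `{0, 2, 4, …, 2 n}` and the finite near Goldbach graph `nearGoldbach n` on `{2, 4, …, 2 n}`.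

From Mathlib: `ContDiffAt ℝ ⊤`: infinitely differentiable at a point; `iteratedDeriv m f`: the derivative of order `m`;
`⌊y⌋₊`: the integer part of `y`, and `0` for `y < 0`.

The starting file shows that after the removal of at most `n / log ^ U n` vertices there are at most `C` components, all of
diameter at most `C`. The vertices of large degree are added to the bounded part as in helper469's file `SmoothVertices`; the
new part is that almost all the vertices in very thin families (the neighbours of the values of smoothly varying functions of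
any non-integral index) have a large degree. The degree is the number of the representations of the vertex as a sum or as
a difference of two primes.
-/

set_option autoImplicit false

namespace Pool.Agent.Results.MP_443e5f_co.NonIntegralOrderVertices

open Finset Filter
open Pool.Agent.Results.MP_443e5f_co.AlmostAllVertices (goldbach nearGoldbach)

/-- `f` is smoothly varying of index `c`: it is infinitely differentiable and positive for large arguments, and
`t ^ m f⁽ᵐ⁾(t) / f(t) → c (c - 1) ... (c - m + 1)` for every `m`. -/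
def SmoothlyVarying (c : ℝ) (f : ℝ → ℝ) : Prop :=
  (∃ t₀ : ℝ, ∀ t > t₀, ContDiffAt ℝ ((⊤ : ℕ∞) : WithTop ℕ∞) f t ∧ 0 < f t) ∧
  ∀ m : ℕ, Tendsto (fun t => t ^ m * iteratedDeriv m f t / f t) atTop (nhds (∏ i ∈ range m, (c - i)))

/-- All the vertices of `G` with at most `n / (log n) ^ U` exceptions belong to `X`, the subgraph of `G` induced on `X` has at
most `C` connected components, any two vertices of the same component of this subgraph are at a distance of at most `C` in it,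
and every vertex of `X` has at least `c n / (log n) ^ 2` neighbours in `X`. -/
def Bounded {V : Type} (G : SimpleGraph V) (X : Set V) (C : ℕ) (c : ℝ) (U n : ℕ) : Prop :=
  (Xᶜ.ncard : ℝ) ≤ n / Real.log n ^ U ∧
    Nat.card (G.induce X).ConnectedComponent ≤ C ∧
    (∀ u v : X, (G.induce X).Reachable u v → (G.induce X).dist u v ≤ C) ∧
    ∀ u : X, c * (n / Real.log n ^ 2) ≤ (((G.induce X).neighborSet u).ncard : ℝ)

/-- `a` is a vertex of the Goldbach graph outside `X` or a vertex of the near Goldbach graph outside `Y`. -/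
def Outside (n : ℕ) (X : Set {a : ℕ // Even a ∧ a ≤ 2 * n}) (Y : Set {a : ℕ // Even a ∧ 2 ≤ a ∧ a ≤ 2 * n}) (a : ℕ) : Prop :=
  (∃ h : Even a ∧ a ≤ 2 * n, (⟨a, h⟩ : {a : ℕ // Even a ∧ a ≤ 2 * n}) ∉ X) ∨
    ∃ h : Even a ∧ 2 ≤ a ∧ a ≤ 2 * n, (⟨a, h⟩ : {a : ℕ // Even a ∧ 2 ≤ a ∧ a ≤ 2 * n}) ∉ Y

open Pool.Agent.N193.PS

open Classical in
/-- There are absolute constants `C` and `c > 0` such that for every `U` there are sets `X n` of vertices of the finite Goldbach
graph `G_n` and `Y n` of vertices of the finite near Goldbach graph `G(n)` with the following properties.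

(0) For all large `n`, all but at most `n / log ^ U n` vertices belong to `X n`, the subgraph induced on `X n` has at most `C`
components, all of diameter at most `C`, and all its degrees are at least `c n / log ^ 2 n`; and the same for `Y n`.

(1) Let `f` be smoothly varying of an index `b > 0` which is not an integer, and let the integer `μ ≠ 0`, `A`, `B`, `W` and `r`
be fixed. Let `n` be large, let `x` be such that `f m ≤ 2 n` for the integers `1 ≤ m ≤ x` and `2 n ≤ f x log ^ r (2 n)`, and let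
`|c₀| ≤ 2 B n`. Then all the integers `1 ≤ m ≤ x`, with at most `x / log ^ W (2 n)` exceptions, are such that ALL the vertices
`a` with `|a - (c₀ + μ ⌊f m⌋)| ≤ log ^ A (2 n)` belong to `X n` and to `Y n`.

(2) Part (1) applies to all the functions `f t = ∑ a z t ^ z.1 (log t) ^ z.2` (finite sums) with a leading term `z₀`
whose coefficient is positive and whose exponent `z₀.1` is positive and not an integer. -/
theorem result : (∃ (C : ℕ) (c : ℝ), 0 < c ∧ ∀ U : ℕ, ∃ (X : ∀ n : ℕ, Set {a : ℕ // Even a ∧ a ≤ 2 * n})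
    (Y : ∀ n : ℕ, Set {a : ℕ // Even a ∧ 2 ≤ a ∧ a ≤ 2 * n}),
    (∃ n₀ : ℕ, ∀ n : ℕ, n₀ ≤ n → Bounded (goldbach n) (X n) C c U n ∧ Bounded (nearGoldbach n) (Y n) C c U n) ∧
    ∀ (b : ℝ) (f : ℝ → ℝ), 0 < b → (∀ m : ℕ, b ≠ m) → SmoothlyVarying b f → ∀ (μ : ℤ), μ ≠ 0 → ∀ (A B W r : ℕ),
      ∃ n₀ : ℕ, ∀ n : ℕ, n₀ ≤ n → ∀ x : ℕ, (∀ m ∈ Icc 1 x, f m ≤ 2 * n) → 2 * n ≤ Real.log (2 * n) ^ r * f x →
      ∀ c₀ : ℤ, |c₀| ≤ 2 * B * n →
        (((Icc 1 x).filter fun m : ℕ => ∃ a : ℕ, |(((a : ℤ) - (c₀ + μ * (⌊f m⌋₊ : ℕ)) : ℤ) : ℝ)| ≤ Real.log (2 * n) ^ A ∧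
          Outside n (X n) (Y n) a).card : ℝ) ≤ x / Real.log (2 * n) ^ W) ∧
    (∀ (F : Finset (ℝ × ℝ)) (a : ℝ × ℝ → ℝ) (z₀ : ℝ × ℝ), z₀ ∈ F → 0 < a z₀ →
      (∀ z ∈ F, z ≠ z₀ → z.1 < z₀.1 ∨ z.1 = z₀.1 ∧ z.2 < z₀.2) →
      SmoothlyVarying z₀.1 (fun t => ∑ z ∈ F, a z * t ^ z.1 * Real.log t ^ z.2)) := by
  refine ⟨?_, fun F a z₀ h1 h2 h3 => gp_sv F a z₀ h1 h2 h3⟩
  obtain ⟨C, c, hc, hall⟩ := Pool.Agent.Results.MP_443e5f_co.AlmostAllVertices.result
  obtain ⟨c₁, hc₁, n₁, hdeg⟩ := Pool.Agent.N469.GG.deg_low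
  refine ⟨C * (C + 3) + C, min c (c₁ / 2), lt_min hc (by positivity), fun U => ?_⟩
  obtain ⟨n₂, h2⟩ := hall (U + 3)
  obtain ⟨n₃, h3⟩ := Pool.Agent.H373R2.T7.ev_L' (2 / c₁ + 1)
  have hex : ∀ n : ℕ, ∃ (X : Set {a : ℕ // Even a ∧ a ≤ 2 * n}) (Y : Set {a : ℕ // Even a ∧ 2 ≤ a ∧ a ≤ 2 * n}),
      n₁ + n₂ + n₃ + 2 ≤ n → (Bounded (goldbach n) X (C * (C + 3) + C) (min c (c₁ / 2)) U n ∧
        Bounded (nearGoldbach n) Y (C * (C + 3) + C) (min c (c₁ / 2)) U n) ∧
        (∀ a, c₁ * (n / Real.log n ^ 2) ≤ (((goldbach n).neighborSet a).ncard : ℝ) → a ∈ X) ∧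
        (∀ a, c₁ * (n / Real.log n ^ 2) ≤ (((nearGoldbach n).neighborSet a).ncard : ℝ) → a ∈ Y) := by
    intro n
    by_cases hn : n₁ + n₂ + n₃ + 2 ≤ n
    · obtain ⟨q1, q2⟩ := h2 n (by omega)
      have a3 := h3 n (by omega)
      have hn0 : (0 : ℝ) < n := by exact_mod_cast (by omega : 0 < n)
      have hL1 : 1 ≤ Real.log (n : ℝ) := by
        have : 0 < 2 / c₁ := by positivity
        linarith
      have hL0 : 0 < Real.log (n : ℝ) := by linarith
      have hpos : 0 < (n : ℝ) / Real.log n ^ 2 := by positivity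
      have hlarge : (n : ℝ) / Real.log n ^ (U + 3) ≤ c₁ / 2 * (n / Real.log n ^ 2) := by
        have e1 : (n : ℝ) / Real.log n ^ (U + 3) = (1 / Real.log n ^ (U + 1)) * (n / Real.log n ^ 2) := by
          rw [show U + 3 = (U + 1) + 2 by ring, pow_add _ (U + 1) 2]
          field_simp
        rw [e1]
        apply mul_le_mul_of_nonneg_right _ hpos.le
        rw [div_le_iff₀ (by positivity)]
        have e2 : Real.log (n : ℝ) ≤ Real.log n ^ (U + 1) := le_self_pow₀ hL1 (by omega)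
        have e3 : 2 / c₁ ≤ Real.log (n : ℝ) := by linarith
        rw [div_le_iff₀ hc₁] at e3
        nlinarith
      obtain ⟨X, ⟨x1, x2, x3, x4⟩, x5⟩ := Pool.Agent.N469.GG.absorb (goldbach n) C c c₁ (U + 3) n q1 hc₁ hpos hlarge
      obtain ⟨Y, ⟨y1, y2, y3, y4⟩, y5⟩ := Pool.Agent.N469.GG.absorb (nearGoldbach n) C c c₁ (U + 3) n q2 hc₁ hpos hlarge
      have hU : (n : ℝ) / Real.log n ^ (U + 3) ≤ n / Real.log n ^ U :=
        div_le_div_of_nonneg_left hn0.le (by positivity) (pow_le_pow_right₀ hL1 (by omega))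
      exact ⟨X, Y, fun _ => ⟨⟨⟨x1.trans hU, x2, x3, x4⟩, ⟨y1.trans hU, y2, y3, y4⟩⟩, x5, y5⟩⟩
    · exact ⟨Set.univ, Set.univ, fun h => absurd h hn⟩
  choose X Y hXY using hex
  refine ⟨X, Y, ⟨n₁ + n₂ + n₃ + 2, fun n hn => (hXY n hn).1⟩, fun b f hb hnb hf μ hμ A B W r => ?_⟩
  obtain ⟨k1, hk1⟩ := sv_pair b f hb hnb hf μ hμ B 5 (W + 1) A r (1 / 2) (by norm_num)
  obtain ⟨k2, hk2⟩ := sv_gold b f hb hnb hf μ hμ B 1 A (W + 1) r 0 (1 / 2) (by norm_num)
    (fun m => Pool.Agent.W93.PG.WinP (1 / 2) 1 m) (fun m _ _ h => h)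
  obtain ⟨k3, hk3⟩ := Pool.Agent.H373R2.T7.ev_L' 2
  refine ⟨k1 + k2 + k3 + n₁ + n₂ + n₃ + 4, fun n hn x hup hlow c₀ hc₀ => ?_⟩
  obtain ⟨-, hX, hY⟩ := hXY n (by omega)
  obtain ⟨d0, d1, d2⟩ := hdeg n (by omega)
  have e2n : ((2 * n : ℕ) : ℝ) = 2 * (n : ℝ) := by push_cast; ring
  have hB : |c₀| ≤ B * ((2 * n : ℕ) : ℤ) := by
    refine hc₀.trans (le_of_eq ?_)
    push_cast
    ring
  have u1 := hk1 (2 * n) (by omega) x (by rw [e2n]; exact hup) (by rw [e2n]; exact hlow) (n / 2) (by omega) (by omega) c₀ hB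
  have u2 := hk2 (2 * n) (by omega) x (by rw [e2n]; exact hup) (by rw [e2n]; exact hlow) c₀ hB
  have u3 := hk3 (2 * n) (by omega)
  rw [e2n] at u1 u2 u3
  have hL0 : 0 < Real.log (2 * (n : ℝ)) := by linarith
  refine le_trans (b := (x / Real.log (2 * (n : ℝ)) ^ (W + 1) + x / Real.log (2 * (n : ℝ)) ^ (W + 1) : ℝ)) ?_ ?_
  · refine le_trans ?_ (add_le_add u1 u2)
    rw [← Nat.cast_add]
    apply Nat.cast_le.2
    refine le_trans (card_le_card ?_) (card_union_le _ _)
    intro m hm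
    rw [mem_filter] at hm
    obtain ⟨hm1, a, ha1, ha2⟩ := hm
    rw [mem_union, mem_filter, mem_filter]
    -- the vertex `a` has a small degree
    have hsmall : Even a ∧ a ≤ 2 * n ∧ ((Pool.Agent.N469.GG.Nb n a).card : ℝ) < c₁ * (n / Real.log n ^ 2) := by
      rcases ha2 with ⟨h, ha⟩ | ⟨h, ha⟩
      · refine ⟨h.1, h.2, ?_⟩
        by_contra hcon
        push Not at hcon
        refine ha (hX _ (hcon.trans ?_))
        exact_mod_cast Pool.Agent.N469.GG.nb_gold n a h
      · refine ⟨h.1, h.2.2, ?_⟩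
        by_contra hcon
        push Not at hcon
        refine ha (hY _ (hcon.trans ?_))
        exact_mod_cast Pool.Agent.N469.GG.nb_near n a h
    obtain ⟨hev, hle, hlt⟩ := hsmall
    have hdist : ((|(a : ℤ) - (c₀ + μ * (⌊f m⌋₊ : ℕ))| : ℤ) : ℝ) ≤ Real.log (2 * n) ^ A := by
      rw [Int.cast_abs]
      exact ha1
    rcases Nat.eq_zero_or_pos a with h0 | h0
    · exfalso
      rw [h0] at hlt
      linarith
    rcases le_or_gt a n with h5 | h5
    · left
      refine ⟨hm1, fun hcon => ?_⟩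
      have h6 := hcon (a : ℤ) hdist (by exact_mod_cast h0)
      rw [Int.toNat_natCast] at h6
      obtain ⟨k, hk⟩ := hev
      have := d1 _ a ⟨k, hk⟩ (by omega) h5 h6
      linarith
    · right
      refine ⟨hm1, fun hcon => ?_⟩
      have h6 := hcon (a : ℤ) hdist (by exact_mod_cast h0) (by
        obtain ⟨k, hk⟩ := hev
        exact ⟨k, by exact_mod_cast hk⟩)
      rw [Int.toNat_natCast] at h6
      have := d2 a hev h5 hle h6
      linarith
  · rw [← add_div, div_le_div_iff₀ (by positivity) (by positivity), pow_succ]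
    have h1 : 0 < Real.log (2 * (n : ℝ)) ^ W := by positivity
    have h2 : (0 : ℝ) ≤ x := Nat.cast_nonneg _
    nlinarith [mul_nonneg h2 h1.le]

end Pool.Agent.Results.MP_443e5f_co.NonIntegralOrderVertices
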