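import Mathlib
import Pool.Agent.N958.GB.Apps
import Pool.Agent.N958.GB.Graph
import Pool.Agent.Results.MP_443e5f_co.DiameterAtLeastFive

set_option autoImplicit false

/-!
# The Goldbach graphs of every sequential random model of the primes have diameter five

The question is whether the finite Goldbach graph `G_n` and the finite near Goldbach graph `G(n)` are
connected with bounded diameter for all large `n`.  We answer it, with the exact diameter, in EVERY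
sequential random model of the primes: the integers are decided one after the other, only integers
coprime to a fixed multiple `Q` of `6` can be chosen, and the conditional probability of choosing `n + 1`
(coprime to `Q`) given the past is asymptotic to `(Q / φ(Q)) / log n`; the primes dividing `Q` are added
to the random set.  No independence is assumed.
-/

open MeasureTheory Filter
open scoped Topology

namespace Pool.Agent.Results.MP_443e5f_co.SievedModels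

/-- An odd element of `P` less than `2 n`. -/
def OddBelow (P : Set ℕ) (n m : ℕ) : Prop := m ∈ P ∧ Odd m ∧ m < 2 * n

/-- The finite Goldbach graph `G_n` of the set `P`, on `{0, 2, 4, …, 2 n}`: distinct `a`, `b` are adjacent
iff `(a + b)/2` and `|a - b|/2` are odd elements of `P` less than `2 n`. -/
def goldbach (P : Set ℕ) (n : ℕ) : SimpleGraph {a : ℕ // Even a ∧ a ≤ 2 * n} where
  Adj a b := a ≠ b ∧ OddBelow P n (((a : ℕ) + b) / 2) ∧ OddBelow P n (Nat.dist a b / 2)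
  symm := ⟨fun a b h => ⟨h.1.symm, by rw [add_comm (b : ℕ)]; exact h.2.1,
    by rw [Nat.dist_comm]; exact h.2.2⟩⟩
  loopless := ⟨fun _ h => h.1 rfl⟩

/-- The finite near Goldbach graph `G(n)` of the set `P`, on `{2, 4, …, 2 n}`: distinct `a`, `b` are
adjacent iff each of `(a + b)/2` and `|a - b|/2` is `1` or an odd element of `P` less than `2 n`. -/
def nearGoldbach (P : Set ℕ) (n : ℕ) : SimpleGraph {a : ℕ // Even a ∧ 2 ≤ a ∧ a ≤ 2 * n} where
  Adj a b := a ≠ b ∧ (((a : ℕ) + b) / 2 = 1 ∨ OddBelow P n (((a : ℕ) + b) / 2)) ∧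
    (Nat.dist a b / 2 = 1 ∨ OddBelow P n (Nat.dist a b / 2))
  symm := ⟨fun a b h => ⟨h.1.symm, by rw [add_comm (b : ℕ)]; exact h.2.1,
    by rw [Nat.dist_comm]; exact h.2.2⟩⟩
  loopless := ⟨fun _ h => h.1 rfl⟩

/-- The `u ≤ n` (with `2 u ≠ a + b`, `2 u ≠ |a - b|`) for which `a + u`, `|a - u|`, `b + u`, `|b - u|`
belong to `S`: then `2 u` is a common neighbour of the vertices `2 a`, `2 b`. -/
def nb (S : Set ℕ) (n a b : ℕ) : Set ℕ :=
  {u | 1 ≤ u ∧ u ≤ n ∧ 2 * u ≠ a + b ∧ 2 * u ≠ Nat.dist a b ∧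
    a + u ∈ S ∧ Nat.dist a u ∈ S ∧ b + u ∈ S ∧ Nat.dist b u ∈ S}

/-- The model of the primes: the random set together with the primes dividing `Q`. -/
def prm {Ω : Type} (A : ℕ → Set Ω) (Q : ℕ) (ω : Ω) : Set ℕ :=
  {k | ω ∈ A k} ∪ {l | l.Prime ∧ l ∣ Q}

open Pool.Agent.N909.TF Pool.Agent.N958.GB

open Classical in
lemma nb_eq {S : Set ℕ} (h0 : 0 ∉ S) (n a b : ℕ) :
    nb S n a b = (((fam n a b).filter (fun u => ∀ t ∈ tup a b u, t ∈ S) : Finset ℕ) : Set ℕ) := by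
  ext u
  unfold nb fam tup
  simp only [Set.mem_ofPred_eq, Finset.coe_filter, Finset.mem_filter, Finset.mem_Ioc,
    Finset.mem_insert, Finset.mem_singleton, forall_eq_or_imp, forall_eq]
  constructor
  · rintro ⟨h1, h2, h3, h4, h5, h6, h7, h8⟩
    refine ⟨⟨⟨h1, h2⟩, h3, h4, ?_, ?_⟩, h5, h6, h7, h8⟩
    · rintro rfl
      rw [Nat.dist_self] at h6
      exact h0 h6
    · rintro rfl
      rw [Nat.dist_self] at h8
      exact h0 h8
  · rintro ⟨⟨⟨h1, h2⟩, h3, h4, -, -⟩, h5, h6, h7, h8⟩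
    exact ⟨h1, h2, h3, h4, h5, h6, h7, h8⟩

lemma nb_cop {Q : ℕ} (hQ1 : Q ≠ 1) (n a b : ℕ) :
    (nb {k : ℕ | Nat.Coprime k Q} n a b).ncard = (cop (fam n a b) (tup a b) Q).card := by
  classical
  rw [nb_eq (by simpa using hQ1), Set.ncard_coe_finset]
  unfold cop
  congr 1
  ext m
  simp only [Finset.mem_filter, Set.mem_ofPred_eq]

lemma nb_cho {Ω : Type} (A : ℕ → Set Ω) (h0 : A 0 = ∅) (n a b : ℕ) (ω : Ω) :
    (nb {k : ℕ | ω ∈ A k} n a b).ncard = (cho A (fam n a b) (tup a b) ω).card := by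
  classical
  rw [nb_eq (by simp [h0]), Set.ncard_coe_finset]
  unfold cho
  congr 1

section graph

variable {P A : Set ℕ} {n : ℕ}

/-- the vertex `2 a` of the Goldbach graph -/
def vg (n a : ℕ) : {a : ℕ // Even a ∧ a ≤ 2 * n} :=
  if h : a ≤ n then ⟨2 * a, even_two_mul a, by omega⟩ else ⟨0, by decide, by omega⟩

/-- the vertex `2 a` of the near Goldbach graph -/
def vn (n : ℕ) (hn : 1 ≤ n) (a : ℕ) : {a : ℕ // Even a ∧ 2 ≤ a ∧ a ≤ 2 * n} :=
  if h : 1 ≤ a ∧ a ≤ n then ⟨2 * a, even_two_mul a, by omega, by omega⟩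
  else ⟨2, by decide, le_rfl, by omega⟩

lemma adj_ok {a u : ℕ} (ha : a ≤ n) (hu : u ≤ n) (h1 : a + u ∈ P) (h2 : (a + u) % 2 = 1)
    (h3 : Nat.dist a u ∈ P) (h4 : Nat.dist a u % 2 = 1) :
    2 * a ≠ 2 * u ∧ OddBelow P n ((2 * a + 2 * u) / 2) ∧ OddBelow P n (Nat.dist (2 * a) (2 * u) / 2) := by
  have e1 : (2 * a + 2 * u) / 2 = a + u := by omega
  have e2 : Nat.dist (2 * a) (2 * u) / 2 = Nat.dist a u := by unfold Nat.dist; omega
  have e3 : a ≠ u := by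
    rintro rfl
    rw [Nat.dist_self] at h4
    omega
  rw [e1, e2]
  refine ⟨by omega, ⟨h1, Nat.odd_iff.2 h2, by omega⟩, ⟨h3, Nat.odd_iff.2 h4, ?_⟩⟩
  unfold Nat.dist
  omega

variable (h6 : ∀ k ∈ A, k % 2 = 1 ∧ k % 3 ≠ 0) (hAP : A ⊆ P) (h3 : 3 ∈ P) (hn : 12 ≤ n)
  (F1 : ∀ a b : ℕ, a ≤ n → b ≤ n → a ≠ b → a % 2 = b % 2 → (3 ∣ a ↔ 3 ∣ b) →
      ∃ u, 1 ≤ u ∧ u ≤ n ∧ a + u ∈ A ∧ Nat.dist a u ∈ A ∧ b + u ∈ A ∧ Nat.dist b u ∈ A)
  (F2 : ∀ a : ℕ, a ≤ n → 3 ∣ a → ∃ v, 1 ≤ v ∧ v + 3 ≤ n ∧ a + v ∈ A ∧ Nat.dist a v ∈ A ∧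
      2 * v + 3 ∈ A)

include h6 hAP h3 hn F1 F2

theorem goldbach_five : (goldbach P n).ediam ≤ 5 := by
  apply SimpleGraph.ediam_le_of_edist_le
  have h := bound5 (lo := 0) h6 hAP h3 (by norm_num) hn F1 F2 (goldbach P n) (vg n) (by
    intro a u _ ha _ hu k1 k2 k3 k4
    obtain ⟨c1, c2, c3⟩ := adj_ok ha hu k1 k2 k3 k4
    unfold vg
    rw [dif_pos ha, dif_pos hu]
    exact ⟨fun h => c1 (congrArg Subtype.val h), c2, c3⟩)
  rintro ⟨a, ⟨x, rfl⟩, ha⟩ ⟨b, ⟨y, rfl⟩, hb⟩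
  have e1 : (⟨x + x, ⟨x, rfl⟩, ha⟩ : {a : ℕ // Even a ∧ a ≤ 2 * n}) = vg n x := by
    unfold vg
    rw [dif_pos (by omega)]
    exact Subtype.ext (by simp only; omega)
  have e2 : (⟨y + y, ⟨y, rfl⟩, hb⟩ : {a : ℕ // Even a ∧ a ≤ 2 * n}) = vg n y := by
    unfold vg
    rw [dif_pos (by omega)]
    exact Subtype.ext (by simp only; omega)
  rw [e1, e2]
  exact h x y (Nat.zero_le _) (by omega) (Nat.zero_le _) (by omega)

theorem near_five : (nearGoldbach P n).ediam ≤ 5 := by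
  apply SimpleGraph.ediam_le_of_edist_le
  have hn1 : 1 ≤ n := by omega
  have h := bound5 (lo := 1) h6 hAP h3 le_rfl hn F1 F2 (nearGoldbach P n) (vn n hn1) (by
    intro a u ha' ha hu' hu k1 k2 k3 k4
    obtain ⟨c1, c2, c3⟩ := adj_ok ha hu k1 k2 k3 k4
    unfold vn
    rw [dif_pos ⟨ha', ha⟩, dif_pos ⟨hu', hu⟩]
    exact ⟨fun h => c1 (congrArg Subtype.val h), Or.inr c2, Or.inr c3⟩)
  rintro ⟨a, ⟨x, rfl⟩, ha2, ha⟩ ⟨b, ⟨y, rfl⟩, hb2, hb⟩
  have e1 : (⟨x + x, ⟨x, rfl⟩, ha2, ha⟩ : {a : ℕ // Even a ∧ 2 ≤ a ∧ a ≤ 2 * n}) = vn n hn1 x := by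
    unfold vn
    rw [dif_pos (by omega)]
    exact Subtype.ext (by simp only; omega)
  have e2 : (⟨y + y, ⟨y, rfl⟩, hb2, hb⟩ : {a : ℕ // Even a ∧ 2 ≤ a ∧ a ≤ 2 * n}) = vn n hn1 y := by
    unfold vn
    rw [dif_pos (by omega)]
    exact Subtype.ext (by simp only; omega)
  rw [e1, e2]
  exact h x y (by omega) (by omega) (by omega) (by omega)

end graph

/-- the lower bound, from the file `DiameterAtLeastFive` -/
theorem ge_five {P : Set ℕ} (hP : ∀ m, m ∈ P → m % 2 = 1 → DiameterAtLeastFive.Q m) {n : ℕ} (hn : 125 ≤ n) :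
    5 ≤ (goldbach P n).ediam ∧ 5 ≤ (nearGoldbach P n).ediam := by
  have hQ : ∀ m, m = 1 ∨ OddBelow P n m → DiameterAtLeastFive.Q m := by
    rintro m (rfl | h)
    · unfold DiameterAtLeastFive.Q
      norm_num
    · exact hP m h.1 (Nat.odd_iff.1 h.2.1)
  constructor
  · let u : {a : ℕ // Even a ∧ a ≤ 2 * n} := ⟨52, by decide, by omega⟩
    let v : {a : ℕ // Even a ∧ a ≤ 2 * n} := ⟨250, by decide, by omega⟩
    have hu : (u : ℕ) / 2 = 26 := by simp only [u]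
    have hv : (v : ℕ) / 2 = 125 := by simp only [v]
    refine (DiameterAtLeastFive.lower (goldbach P n) (fun a => (a : ℕ) / 2) ?_ u v hu hv).trans
      SimpleGraph.edist_le_ediam
    rintro ⟨a, ⟨x, rfl⟩, ha⟩ ⟨b, ⟨y, rfl⟩, hb⟩ ⟨-, h1, h2⟩
    simp only at h1 h2 ⊢
    have e1 : (x + x) / 2 + (y + y) / 2 = (x + x + (y + y)) / 2 := by omega
    have e2 : Nat.dist ((x + x) / 2) ((y + y) / 2) = Nat.dist (x + x) (y + y) / 2 := by
      unfold Nat.dist; omega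
    rw [e1, e2]
    exact ⟨hQ _ (Or.inr h1), hQ _ (Or.inr h2)⟩
  · let u : {a : ℕ // Even a ∧ 2 ≤ a ∧ a ≤ 2 * n} := ⟨52, by decide, by norm_num, by omega⟩
    let v : {a : ℕ // Even a ∧ 2 ≤ a ∧ a ≤ 2 * n} := ⟨250, by decide, by norm_num, by omega⟩
    have hu : (u : ℕ) / 2 = 26 := by simp only [u]
    have hv : (v : ℕ) / 2 = 125 := by simp only [v]
    refine (DiameterAtLeastFive.lower (nearGoldbach P n) (fun a => (a : ℕ) / 2) ?_ u v hu hv).trans
      SimpleGraph.edist_le_ediam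
    rintro ⟨a, ⟨x, rfl⟩, ha⟩ ⟨b, ⟨y, rfl⟩, hb⟩ ⟨-, h1, h2⟩
    simp only at h1 h2 ⊢
    have e1 : (x + x) / 2 + (y + y) / 2 = (x + x + (y + y)) / 2 := by omega
    have e2 : Nat.dist ((x + x) / 2) ((y + y) / 2) = Nat.dist (x + x) (y + y) / 2 := by
      unfold Nat.dist; omega
    rw [e1, e2]
    exact ⟨hQ _ h1, hQ _ h2⟩

lemma prm_Q {Ω : Type} {A : ℕ → Set Ω} {Q : ℕ} {ω : Ω} (h30 : 30030 ∣ Q)
    (hA : ∀ k, ω ∈ A k → Nat.Coprime k Q) (m : ℕ) (hm : m ∈ prm A Q ω) (hm2 : m % 2 = 1) :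
    DiameterAtLeastFive.Q m := by
  have key : ∀ l : ℕ, l.Prime → l ∣ 30030 → l ∣ m → ω ∈ A m → False := by
    intro l hl hl30 hlm h
    have h1 := hA m h
    have h2 : l ∣ Nat.gcd m Q := Nat.dvd_gcd hlm (hl30.trans h30)
    rw [Nat.Coprime] at h1
    rw [h1] at h2
    exact hl.one_lt.ne' (Nat.dvd_one.1 h2)
  rcases hm with h | ⟨hp, -⟩
  · have h : ω ∈ A m := h
    refine ⟨hm2, Or.inl fun h3 => key 3 Nat.prime_three (by norm_num) (Nat.dvd_of_mod_eq_zero h3) h,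
      ?_, ?_, ?_, ?_, ?_⟩
    · rintro rfl
      exact key 7 (by norm_num) (by norm_num) (by norm_num) h
    · rintro rfl
      exact key 5 (by norm_num) (by norm_num) (by norm_num) h
    · rintro rfl
      exact key 5 (by norm_num) (by norm_num) (by norm_num) h
    · rintro rfl
      exact key 13 (by norm_num) (by norm_num) (by norm_num) h
    · rintro rfl
      exact key 11 (by norm_num) (by norm_num) (by norm_num) h
  · have hm3 : DiameterAtLeastFive.OddPrimeBelow (m + 1) m := ⟨hp, Nat.odd_iff.2 hm2, by omega⟩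
    exact DiameterAtLeastFive.Q_of (Or.inr hm3)

end Pool.Agent.Results.MP_443e5f_co.SievedModels

open Pool.Agent.Results.MP_443e5f_co.SievedModels Pool.Agent.N909.TF Pool.Agent.N958.GB

/-- Let `A n` be the event that `n` belongs to a random set adapted to a filtration `ℱ`, let `Q ≥ 1` be
divisible by `6`, let no integer which is not coprime to `Q` be chosen, and let the conditional
probability of `A (n + 1)` given `ℱ n`, times `log n`, tend to `Q / φ(Q)` along the `n` with `n + 1`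
coprime to `Q`, almost surely.  Let `P` be the random set together with the primes dividing `Q`.
(1) If `a, b ≤ n` have the same parity and are both divisible or both not divisible by `3`, there are at
least `n / (2 Q)` integers `u ≤ n` for which `a ± u`, `b ± u` are coprime to `Q` (`n ≥ 12 Q`).
(2) Almost surely, uniformly in such `a ≠ b`, `1 ≤ a, b ≤ n`, the number of common neighbours `2 u` of
`2 a`, `2 b` with `a ± u`, `b ± u` chosen is asymptotic to the number in (1) times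
`((Q / φ(Q)) / log n) ^ 4`.
(3) Almost surely, for all large `n` the Goldbach graph `G_n` and the near Goldbach graph `G(n)` of `P`
are connected, of diameter at most `5`.
(4) If `2 · 3 · 5 · 7 · 11 · 13` divides `Q`, then almost surely both diameters are equal to `5` for all
large `n`. -/
theorem Pool.Agent.Results.MP_443e5f_co.SievedModels.result
    {Ω : Type} [mΩ : MeasurableSpace Ω] (μ : Measure Ω) [IsProbabilityMeasure μ]
    (ℱ : Filtration ℕ mΩ) (A : ℕ → Set Ω) (hA : ∀ n, MeasurableSet[ℱ n] (A n))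
    (Q : ℕ) (hQ : 0 < Q) (hQ6 : 6 ∣ Q) (hcop : ∀ n, ¬ Nat.Coprime n Q → A n = ∅)
    (hd : ∀ᵐ ω ∂μ, Tendsto (fun n : ℕ =>
      (μ[(A (n + 1)).indicator (fun _ => (1 : ℝ)) | ℱ n]) ω * Real.log n)
      (atTop ⊓ 𝓟 {n : ℕ | Nat.Coprime (n + 1) Q}) (𝓝 ((Q : ℝ) / Nat.totient Q))) :
    (∀ n a b : ℕ, 12 * Q ≤ n → a % 2 = b % 2 → (3 ∣ a ↔ 3 ∣ b) →
      (n : ℝ) / (2 * Q) ≤ (nb {k : ℕ | Nat.Coprime k Q} n a b).ncard) ∧
    (∀ᵐ ω ∂μ, ∀ ε : ℝ, 0 < ε → ∀ᶠ n : ℕ in atTop, ∀ a b : ℕ, 1 ≤ a → a ≤ n → 1 ≤ b → b ≤ n →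
      a ≠ b → a % 2 = b % 2 → (3 ∣ a ↔ 3 ∣ b) →
      |((nb {k : ℕ | ω ∈ A k} n a b).ncard : ℝ) -
        (nb {k : ℕ | Nat.Coprime k Q} n a b).ncard * (((Q : ℝ) / Nat.totient Q) / Real.log n) ^ 4| ≤
      ε * ((nb {k : ℕ | Nat.Coprime k Q} n a b).ncard *
        (((Q : ℝ) / Nat.totient Q) / Real.log n) ^ 4)) ∧
    (∀ᵐ ω ∂μ, ∀ᶠ n : ℕ in atTop,
      ((goldbach (prm A Q ω) n).Connected ∧ (goldbach (prm A Q ω) n).ediam ≤ 5) ∧
      ((nearGoldbach (prm A Q ω) n).Connected ∧ (nearGoldbach (prm A Q ω) n).ediam ≤ 5)) ∧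
    (30030 ∣ Q → ∀ᵐ ω ∂μ, ∀ᶠ n : ℕ in atTop,
      (goldbach (prm A Q ω) n).ediam = 5 ∧ (nearGoldbach (prm A Q ω) n).ediam = 5) := by
  classical
  have hQ' : 6 ≤ Q := Nat.le_of_dvd hQ hQ6
  have hQ1 : Q ≠ 1 := by omega
  have hA0 : A 0 = ∅ := hcop 0 (by simpa using hQ1)
  have hcp : ∀ ω k, ω ∈ A k → Nat.Coprime k Q := by
    intro ω k h
    by_contra hcon
    rw [hcop k hcon] at h
    exact h
  have h6 : ∀ ω, ∀ k ∈ {k : ℕ | ω ∈ A k}, k % 2 = 1 ∧ k % 3 ≠ 0 := by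
    intro ω k hk
    have h1 : Nat.Coprime k 6 := Nat.Coprime.of_dvd_right hQ6 (hcp ω k hk)
    constructor
    · by_contra h2
      have h3 : 2 ∣ Nat.gcd k 6 := Nat.dvd_gcd (by omega) (by norm_num)
      rw [Nat.Coprime] at h1
      omega
    · intro h2
      have h3 : 3 ∣ Nat.gcd k 6 := Nat.dvd_gcd (by omega) (by norm_num)
      rw [Nat.Coprime] at h1
      omega
  have h3P : ∀ ω, 3 ∈ prm A Q ω := fun ω =>
    Or.inr ⟨Nat.prime_three, dvd_trans (by norm_num) hQ6⟩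
  have hex := exist (μ := μ) hA Q hQ' hcop hd
  have up : ∀ᵐ ω ∂μ, ∀ᶠ n : ℕ in atTop,
      ((goldbach (prm A Q ω) n).Connected ∧ (goldbach (prm A Q ω) n).ediam ≤ 5) ∧
      ((nearGoldbach (prm A Q ω) n).Connected ∧ (nearGoldbach (prm A Q ω) n).ediam ≤ 5) := by
    filter_upwards [hex] with ω hω
    filter_upwards [hω, eventually_ge_atTop 12] with n g hn
    have k1 := goldbach_five (A := {k : ℕ | ω ∈ A k}) (P := prm A Q ω) (h6 ω)
      (Set.subset_union_left) (h3P ω) hn g.1 g.2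
    have k2 := near_five (A := {k : ℕ | ω ∈ A k}) (P := prm A Q ω) (h6 ω)
      (Set.subset_union_left) (h3P ω) hn g.1 g.2
    have : Nonempty {a : ℕ // Even a ∧ a ≤ 2 * n} := ⟨⟨0, by decide, by omega⟩⟩
    have : Nonempty {a : ℕ // Even a ∧ 2 ≤ a ∧ a ≤ 2 * n} := ⟨⟨2, by decide, le_rfl, by omega⟩⟩
    have h5 : (5 : ℕ∞) < ⊤ := by exact_mod_cast ENat.natCast_lt_top 5
    exact ⟨⟨SimpleGraph.connected_of_ediam_ne_top (ne_of_lt (lt_of_le_of_lt k1 h5)), k1⟩,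
      ⟨SimpleGraph.connected_of_ediam_ne_top (ne_of_lt (lt_of_le_of_lt k2 h5)), k2⟩⟩
  refine ⟨?_, ?_, up, ?_⟩
  · intro n a b hn h2 h3
    rw [nb_cop hQ1]
    exact fam_many Q n a b hQ' hn h2 h3
  · filter_upwards [common (μ := μ) hA Q hQ' hcop hd] with ω hω ε hε
    filter_upwards [hω ε hε] with n g a b ha ha' hb hb' hab h2 h3
    rw [nb_cop hQ1, nb_cho A hA0]
    exact g a b ⟨ha, ha', hb, hb', hab, h2, h3⟩
  · intro h30
    filter_upwards [up] with ω hω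
    filter_upwards [hω, eventually_ge_atTop 125] with n g hn
    have h1 := ge_five (P := prm A Q ω) (prm_Q h30 (hcp ω)) hn
    exact ⟨le_antisymm g.1.2 h1.1, le_antisymm g.2.2 h1.2⟩
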