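import Pool.Agent.N469.GG.Deg

/-!
# The Goldbach graphs: almost all smooth vertices are in the bounded part

Definitions used, from the starting file `Pool.Agent.Results.MP_443e5f_co.AlmostAllVertices`: the finite Goldbach graph
`goldbach n` on `{0, 2, 4, …, 2 n}` and the finite near Goldbach graph `nearGoldbach n` on `{2, 4, …, 2 n}`.

The starting file shows that after the removal of at most `n / log ^ U n` vertices (some set of vertices, about which nothing
is known) there are at most `C` components, all of diameter at most `C`. Here all the vertices of large degree are added to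
the bounded part, and it is shown that almost all the vertices in very thin families have a large degree: in families of
about `n ^ (1 / 2 + δ)` integers, all of which might belong to the removed set.

The degree is the number of the representations of the vertex as a sum or as a difference of two primes. The proof combines
an elementary bound for the exponential sum over the integers composed of primes from a given set
(`Pool.Agent.N469.SQ.exp_alt`) with the second moment methods of the starting files (`Pool.Agent.Y885.tl_windows`,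
`Pool.Agent.Y885.tl_tuples`).
-/

set_option autoImplicit false

namespace Pool.Agent.Results.MP_443e5f_co.SmoothVertices

open Finset
open Pool.Agent.Results.MP_443e5f_co.AlmostAllVertices (goldbach nearGoldbach)

/-- All the vertices of `G` with at most `n / (log n) ^ U` exceptions belong to `X`, the subgraph of `G` induced on `X` has at
most `C` connected components, any two vertices of the same component of this subgraph are at a distance of at most `C` in it,
and every vertex of `X` has at least `c n / (log n) ^ 2` neighbours in `X`. -/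
def Bounded {V : Type} (G : SimpleGraph V) (X : Set V) (C : ℕ) (c : ℝ) (U n : ℕ) : Prop :=
  (Xᶜ.ncard : ℝ) ≤ n / Real.log n ^ U ∧
    Nat.card (G.induce X).ConnectedComponent ≤ C ∧
    (∀ u v : X, (G.induce X).Reachable u v → (G.induce X).dist u v ≤ C) ∧
    ∀ u : X, c * (n / Real.log n ^ 2) ≤ (((G.induce X).neighborSet u).ncard : ℝ)

/-- `a` is a vertex of the Goldbach graph outside `X` or a vertex of the near Goldbach graph outside `Y`. -/
def Outside (n : ℕ) (X : Set {a : ℕ // Even a ∧ a ≤ 2 * n}) (Y : Set {a : ℕ // Even a ∧ 2 ≤ a ∧ a ≤ 2 * n}) (a : ℕ) : Prop :=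
  (∃ h : Even a ∧ a ≤ 2 * n, (⟨a, h⟩ : {a : ℕ // Even a ∧ a ≤ 2 * n}) ∉ X) ∨
    ∃ h : Even a ∧ 2 ≤ a ∧ a ≤ 2 * n, (⟨a, h⟩ : {a : ℕ // Even a ∧ 2 ≤ a ∧ a ≤ 2 * n}) ∉ Y

/-- The integers `1 ≤ v ≤ N` all of whose prime factors belong to `P`. -/
def composedOf (P : Finset ℕ) (N : ℕ) : Finset ℕ := (Icc 1 N).filter fun v => v.primeFactors ⊆ P

/-- The `y`-smooth integers `1 ≤ v ≤ N`: the integers all of whose prime factors are at most `y`. -/
def smooth (y N : ℕ) : Finset ℕ := (Icc 1 N).filter fun v => ∀ p ∈ v.primeFactors, p ≤ y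

open Classical in
/-- There are absolute constants `C` and `c > 0` such that for every `U` there are sets `X n` of vertices of the finite Goldbach
graph `G_n` and `Y n` of vertices of the finite near Goldbach graph `G(n)` with the following properties.

(0) For all large `n`, all but at most `n / log ^ U n` vertices belong to `X n`, the subgraph induced on `X n` has at most `C`
components, all of diameter at most `C`, and all its degrees are at least `c n / log ^ 2 n`; and the same for `Y n`.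

Let `A`, `K`, `B`, `W`, the integer `μ ≠ 0` and `δ > 0` be fixed, let `n` be large, `1 ≤ y ≤ log ^ K (2 n)` and let `c₀` be an
integer with `|c₀| ≤ B n`.

(1) Let `P` be an arbitrary set of primes which are at most `y`, with at least `y ^ (1 / 2 + δ) log (2 n)` elements. Then for
all the integers `v ≤ 2 n` composed of primes from `P`, up to a proportion of at most `1 / log ^ W (2 n)` of them, ALL the
vertices `a` with `|a - (c₀ + μ v)| ≤ log ^ A (2 n)` belong to `X n` and to `Y n`.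

(2) In particular this holds for all the `y`-smooth integers `v ≤ 2 n`, up to a proportion of at most `1 / log ^ W (2 n)` of
them, if `y ≥ log ^ (2 + δ) (2 n)`. -/
theorem result : ∃ (C : ℕ) (c : ℝ), 0 < c ∧ ∀ U : ℕ, ∃ (X : ∀ n : ℕ, Set {a : ℕ // Even a ∧ a ≤ 2 * n})
    (Y : ∀ n : ℕ, Set {a : ℕ // Even a ∧ 2 ≤ a ∧ a ≤ 2 * n}),
    (∃ n₀ : ℕ, ∀ n : ℕ, n₀ ≤ n → Bounded (goldbach n) (X n) C c U n ∧ Bounded (nearGoldbach n) (Y n) C c U n) ∧
    ∀ (A K B W : ℕ) (μ : ℤ) (δ : ℝ), μ ≠ 0 → 0 < δ → ∃ n₀ : ℕ, ∀ n : ℕ, n₀ ≤ n →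
      ∀ y : ℕ, 1 ≤ y → (y : ℝ) ≤ Real.log (2 * n) ^ K → ∀ c₀ : ℤ, |c₀| ≤ B * n →
      (∀ P : Finset ℕ, (∀ p ∈ P, p.Prime ∧ p ≤ y) → (y : ℝ) ^ (1 / 2 + δ) * Real.log (2 * n) ≤ P.card →
        (((composedOf P (2 * n)).filter fun v : ℕ => ∃ a : ℕ, |(((a : ℤ) - (c₀ + μ * v) : ℤ) : ℝ)| ≤ Real.log (2 * n) ^ A ∧
          Outside n (X n) (Y n) a).card : ℝ) ≤ ((composedOf P (2 * n)).card : ℝ) / Real.log (2 * n) ^ W) ∧
      (Real.log (2 * n) ^ (2 + δ) ≤ y →
        (((smooth y (2 * n)).filter fun v : ℕ => ∃ a : ℕ, |(((a : ℤ) - (c₀ + μ * v) : ℤ) : ℝ)| ≤ Real.log (2 * n) ^ A ∧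
          Outside n (X n) (Y n) a).card : ℝ) ≤ ((smooth y (2 * n)).card : ℝ) / Real.log (2 * n) ^ W) := by
  obtain ⟨C, c, hc, hall⟩ := Pool.Agent.Results.MP_443e5f_co.AlmostAllVertices.result
  obtain ⟨c₁, hc₁, n₁, hdeg⟩ := Pool.Agent.N469.GG.deg_low
  refine ⟨C * (C + 3) + C, min c (c₁ / 2), lt_min hc (by positivity), fun U => ?_⟩
  obtain ⟨n₂, h2⟩ := hall (U + 3)
  obtain ⟨n₃, h3⟩ := Pool.Agent.H373R2.T7.ev_L' (2 / c₁ + 1)
  have hex : ∀ n : ℕ, ∃ (X : Set {a : ℕ // Even a ∧ a ≤ 2 * n}) (Y : Set {a : ℕ // Even a ∧ 2 ≤ a ∧ a ≤ 2 * n}),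
      n₁ + n₂ + n₃ + 2 ≤ n → (Bounded (goldbach n) X (C * (C + 3) + C) (min c (c₁ / 2)) U n ∧
        Bounded (nearGoldbach n) Y (C * (C + 3) + C) (min c (c₁ / 2)) U n) ∧
        (∀ a, c₁ * (n / Real.log n ^ 2) ≤ (((goldbach n).neighborSet a).ncard : ℝ) → a ∈ X) ∧
        (∀ a, c₁ * (n / Real.log n ^ 2) ≤ (((nearGoldbach n).neighborSet a).ncard : ℝ) → a ∈ Y) := by
    intro n
    by_cases hn : n₁ + n₂ + n₃ + 2 ≤ n
    · obtain ⟨q1, q2⟩ := h2 n (by omega)
      have a3 := h3 n (by omega)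
      have hn0 : (0 : ℝ) < n := by exact_mod_cast (by omega : 0 < n)
      have hL1 : 1 ≤ Real.log (n : ℝ) := by
        have : 0 < 2 / c₁ := by positivity
        linarith
      have hL0 : 0 < Real.log (n : ℝ) := by linarith
      have hpos : 0 < (n : ℝ) / Real.log n ^ 2 := by positivity
      have hlarge : (n : ℝ) / Real.log n ^ (U + 3) ≤ c₁ / 2 * (n / Real.log n ^ 2) := by
        have e1 : (n : ℝ) / Real.log n ^ (U + 3) = (1 / Real.log n ^ (U + 1)) * (n / Real.log n ^ 2) := by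
          rw [show U + 3 = (U + 1) + 2 by ring, pow_add _ (U + 1) 2]
          field_simp
        rw [e1]
        apply mul_le_mul_of_nonneg_right _ hpos.le
        rw [div_le_iff₀ (by positivity)]
        have e2 : Real.log (n : ℝ) ≤ Real.log n ^ (U + 1) := le_self_pow₀ hL1 (by omega)
        have e3 : 2 / c₁ ≤ Real.log (n : ℝ) := by linarith
        rw [div_le_iff₀ hc₁] at e3
        nlinarith
      obtain ⟨X, ⟨x1, x2, x3, x4⟩, x5⟩ := Pool.Agent.N469.GG.absorb (goldbach n) C c c₁ (U + 3) n q1 hc₁ hpos hlarge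
      obtain ⟨Y, ⟨y1, y2, y3, y4⟩, y5⟩ := Pool.Agent.N469.GG.absorb (nearGoldbach n) C c c₁ (U + 3) n q2 hc₁ hpos hlarge
      have hU : (n : ℝ) / Real.log n ^ (U + 3) ≤ n / Real.log n ^ U :=
        div_le_div_of_nonneg_left hn0.le (by positivity) (pow_le_pow_right₀ hL1 (by omega))
      exact ⟨X, Y, fun _ => ⟨⟨⟨x1.trans hU, x2, x3, x4⟩, ⟨y1.trans hU, y2, y3, y4⟩⟩, x5, y5⟩⟩
    · exact ⟨Set.univ, Set.univ, fun h => absurd h hn⟩
  choose X Y hXY using hex
  refine ⟨X, Y, ⟨n₁ + n₂ + n₃ + 2, fun n hn => (hXY n hn).1⟩, fun A K B W μ δ hμ hδ => ?_⟩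
  obtain ⟨N₀, h0⟩ := Pool.Agent.N469.TL.both δ hδ K W (fun N E => ∃ (cc : ℤ) (n : ℕ), |cc| ≤ B * N ∧ N = 2 * n ∧
    ∀ v, E v → ∃ a : ℕ, |(((a : ℤ) - (cc + μ * (v : ℤ)) : ℤ) : ℝ)| ≤ Real.log N ^ A ∧
      Even a ∧ a ≤ 2 * n ∧ ((Pool.Agent.N469.GG.Nb n a).card : ℝ) < c₁ * (n / Real.log n ^ 2))
    (fun δ hδ => Pool.Agent.N469.GG.core μ hμ K B A W c₁ n₁ δ hδ hdeg)
  refine ⟨N₀ + n₁ + n₂ + n₃ + 2, fun n hn y hy hy' c₀ hc₀ => ?_⟩
  obtain ⟨-, hX, hY⟩ := hXY n (by omega)
  have e2n : ((2 * n : ℕ) : ℝ) = 2 * (n : ℝ) := by push_cast; ring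
  have hB : |c₀| ≤ B * ((2 * n : ℕ) : ℤ) := by
    refine hc₀.trans ?_
    push_cast
    have : (0 : ℤ) ≤ (B : ℤ) * n := by positivity
    linarith
  have key := h0 (2 * n) (by omega) y hy (by rw [e2n]; exact hy')
    (fun v : ℕ => ∃ a : ℕ, |(((a : ℤ) - (c₀ + μ * v) : ℤ) : ℝ)| ≤ Real.log (2 * n) ^ A ∧ Outside n (X n) (Y n) a)
    (fun v => inferInstance) ⟨c₀, n, hB, rfl, fun v hv => by
      obtain ⟨a, ha1, ha2⟩ := hv
      refine ⟨a, by rw [e2n]; exact ha1, ?_⟩
      rcases ha2 with ⟨h, ha⟩ | ⟨h, ha⟩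
      · refine ⟨h.1, h.2, ?_⟩
        by_contra hcon
        push Not at hcon
        refine ha (hX _ (hcon.trans ?_))
        exact_mod_cast Pool.Agent.N469.GG.nb_gold n a h
      · refine ⟨h.1, h.2.2, ?_⟩
        by_contra hcon
        push Not at hcon
        refine ha (hY _ (hcon.trans ?_))
        exact_mod_cast Pool.Agent.N469.GG.nb_near n a h⟩
  rw [e2n] at key
  exact key

end Pool.Agent.Results.MP_443e5f_co.SmoothVertices
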